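import Pool.Agent.Helper8.CL.Nat
import Pool.Agent.Helper67.CL.Abs

/-!
# Project CL, module R: arithmetical relations with parameters in an inner model

An arithmetical statement with parameters in an inner model which has a solution has a solution in
the inner model.
-/

set_option autoImplicit false

namespace Pool.Agent.Helper17.CL

open ZFSet

/-- The relations `R x p` between sets `x` of natural numbers and natural numbers `p` which are
arithmetical with parameters from `M`. -/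
inductive Arith (M : Set ZFSet.{0}) : (Set ℕ → ℕ → Prop) → Prop
  | am {R : ℕ → Prop} : Am M R → Arith M (fun _ p => R p)
  | mem {f : ℕ → ℕ} : AmF M f → Arith M (fun x p => f p ∈ x)
  | not {R : Set ℕ → ℕ → Prop} : Arith M R → Arith M (fun x p => ¬ R x p)
  | and {R S : Set ℕ → ℕ → Prop} : Arith M R → Arith M S → Arith M (fun x p => R x p ∧ S x p)
  | ex {R : Set ℕ → ℕ → Prop} : Arith M R → Arith M (fun x p => ∃ n, R x (Nat.pair p n))

/-- The set of the functions which satisfy `C` is the set of the branches of a tree in `M`. -/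
def ArCl (M : Set ZFSet.{0}) (C : (ℕ → ℕ) → Prop) : Prop :=
  ∃ T : Set (List ℕ), code T ∈ M ∧ ∀ f, C f ↔ ∀ n, rini f n ∈ T

theorem ar_length {γ : Type} (f : ℕ → γ) (n : ℕ) : (rini f n).length = n := by
  induction n with
  | zero => rfl
  | succ n ih => rw [rini, List.length_cons, ih]

theorem ar_map {γ δ : Type} (g : γ → δ) (f : ℕ → γ) (n : ℕ) :
    rini (fun i => g (f i)) n = (rini f n).map g := by
  induction n with
  | zero => rfl
  | succ n ih => rw [rini, rini, List.map_cons, ih]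

theorem ar_getD {f : ℕ → ℕ} {n i : ℕ} (hi : i < n) :
    (rini f n).getD (n - 1 - i) 0 = f i := by
  induction n with
  | zero => omega
  | succ n ih =>
    rw [rini]
    rcases Nat.lt_succ_iff_lt_or_eq.1 hi with h1 | rfl
    · have h2 : n + 1 - 1 - i = (n - 1 - i) + 1 := by omega
      rw [h2, List.getD_cons_succ]
      exact ih h1
    · have h2 : i + 1 - 1 - i = 0 := by omega
      rw [h2, List.getD_cons_zero]

theorem ar_reverse {f : ℕ → ℕ} {n i : ℕ} (hi : i < n) :
    (rini f n).reverse.getD i 0 = f i := by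
  rw [List.getD_eq_getElem?_getD, List.getElem?_reverse (by rw [ar_length]; exact hi),
    ← List.getD_eq_getElem?_getD, ar_length]
  exact ar_getD hi

section

variable {M : Set ZFSet.{0}} (h : IsInner M)
include h

theorem ArCl.and {C D : (ℕ → ℕ) → Prop} (hC : ArCl M C) (hD : ArCl M D) :
    ArCl M (fun f => C f ∧ D f) := by
  obtain ⟨T, hT, hT'⟩ := hC
  obtain ⟨U, hU, hU'⟩ := hD
  refine ⟨{l | l ∈ T ∧ l ∈ U}, ?_, fun f => ?_⟩
  · have h1 : AmF M (fun q : Set (List ℕ) × Set (List ℕ) => {l | l ∈ q.1 ∧ l ∈ q.2}) := by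
      refine AmF.setOf h (R := fun (q : Set (List ℕ) × Set (List ℕ)) l => l ∈ q.1 ∧ l ∈ q.2) ?_
      exact (Am.mem_set h (AmF.snd h) ((AmF.fst h).comp h (AmF.fst h))).and h
        (Am.mem_set h (AmF.snd h) ((AmF.snd h).comp h (AmF.fst h)))
    exact h1.mem (T, U) ((code_mem_prod h).2 ⟨hT, hU⟩)
  · show (C f ∧ D f) ↔ _
    rw [hT', hU']
    exact forall_and.symm

theorem ArCl.map {C : (ℕ → ℕ) → Prop} (hC : ArCl M C) {g : ℕ → ℕ} (hg : AmF M g) :
    ArCl M (fun f => C (fun i => g (f i))) := by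
  obtain ⟨T, hT, hT'⟩ := hC
  refine ⟨{l | l.map g ∈ T}, ?_, fun f => ?_⟩
  · have h1 : AmF M (fun q : Set (List ℕ) => {l : List ℕ | l.map g ∈ q}) := by
      refine AmF.setOf h (R := fun (q : Set (List ℕ)) (l : List ℕ) => l.map g ∈ q) ?_
      exact Am.mem_set h (AmF.listMap h (k := fun _ a => g a) (hg.comp h (AmF.snd h))
        (AmF.snd h)) (AmF.fst h)
    exact h1.mem T hT
  · show C (fun i => g (f i)) ↔ _
    rw [hT']
    refine forall_congr' fun n => ?_
    rw [ar_map]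
    rfl

/-- The value at `i` of the reversed initial segment `l`. -/
theorem AmF.arEntry {α : Type*} [Cod α] {l : α → List ℕ} {i : α → ℕ} (hl : AmF M l)
    (hi : AmF M i) : AmF M (fun x => (l x).reverse.getD (i x) 0) :=
  AmF.getD h (AmF.reverse h hl) hi (AmF.const h 0 (AbsCod.mem h _))

/-- The closed conditions: for all `k` a condition on `k` and two values. -/
theorem ArCl.cond {Q : ℕ → ℕ → ℕ → Prop} {a b : ℕ → ℕ}
    (hQ : Am M (fun q : ℕ × ℕ × ℕ => Q q.1 q.2.1 q.2.2)) (ha : AmF M a) (hb : AmF M b) :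
    ArCl M (fun f => ∀ k, Q k (f (a k)) (f (b k))) := by
  refine ⟨{l | ∀ k, a k < l.length → b k < l.length →
    Q k (l.reverse.getD (a k) 0) (l.reverse.getD (b k) 0)}, ?_, fun f => ?_⟩
  · have h1 : AmF M (fun _ : ℕ => {l : List ℕ | ∀ k, a k < l.length → b k < l.length →
      Q k (l.reverse.getD (a k) 0) (l.reverse.getD (b k) 0)}) := by
      refine AmF.setOf h (R := fun (_ : ℕ) (l : List ℕ) => ∀ k, a k < l.length →
        b k < l.length → Q k (l.reverse.getD (a k) 0) (l.reverse.getD (b k) 0)) ?_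
      refine Am.allA h (R := fun (q : ℕ × List ℕ) k => a k < q.2.length →
        b k < q.2.length → Q k (q.2.reverse.getD (a k) 0) (q.2.reverse.getD (b k) 0)) ?_
      have hl : AmF M (fun q : (ℕ × List ℕ) × ℕ => q.1.2) := (AmF.snd h).comp h (AmF.fst h)
      have hk : AmF M (fun q : (ℕ × List ℕ) × ℕ => q.2) := AmF.snd h
      refine Am.imp h (Am.natLt h (ha.comp h hk) (AmF.length h hl)) (Am.imp h
        (Am.natLt h (hb.comp h hk) (AmF.length h hl)) ?_)
      exact hQ.comp h (f := fun q : (ℕ × List ℕ) × ℕ => (q.2, q.1.2.reverse.getD (a q.2) 0,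
        q.1.2.reverse.getD (b q.2) 0)) (hk.prod h ((AmF.arEntry h hl (ha.comp h hk)).prod h
          (AmF.arEntry h hl (hb.comp h hk))))
    exact h1.mem 0 (AbsCod.mem h _)
  · constructor
    · intro h1 n k hak hbk
      rw [ar_length] at hak hbk
      rw [ar_reverse hak, ar_reverse hbk]
      exact h1 k
    · intro h1 k
      have h2 := h1 (max (a k) (b k) + 1) k (by rw [ar_length]; omega)
        (by rw [ar_length]; omega)
      rw [ar_reverse (by omega), ar_reverse (by omega)] at h2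
      exact h2

end

/-- The truth value in the code `v` of the value of the extended solution. -/
def arTv (v : ℕ) : ℕ := v.unpair.2.unpair.2

/-- The auxiliary value. -/
def arAv (v : ℕ) : ℕ := v.unpair.2.unpair.1

open Classical in
/-- The characteristic function. -/
noncomputable def arChi (x : Set ℕ) (i : ℕ) : ℕ := if i ∈ x then 1 else 0

/-- The set which is coded in the first components. -/
def arDec (f : ℕ → ℕ) : Set ℕ := {i | (f i).unpair.1 = 1}

theorem arDec_pair (x : Set ℕ) (s : ℕ → ℕ) : arDec (fun i => Nat.pair (arChi x i) (s i)) = x := by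
  ext i
  by_cases hi : i ∈ x <;> simp [arDec, arChi, hi]

/-- `C` is a system for the relation `R`. -/
structure ArSys (M : Set ZFSet.{0}) (R : Set ℕ → ℕ → Prop) (C : (ℕ → ℕ) → Prop) : Prop where
  cl : ArCl M C
  ex : ∀ x, ∃ s : ℕ → ℕ, C (fun i => Nat.pair (arChi x i) (s i))
  tv : ∀ f, C f → ∀ p, (arTv (f p) ≠ 0 ↔ R (arDec f) p)

section

variable {M : Set ZFSet.{0}} (h : IsInner M)
include h

theorem AmF.arUnpair1 {α : Type*} [Cod α] {f : α → ℕ} (hf : AmF M f) :
    AmF M (fun x => (f x).unpair.1) :=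
  (AmF.fst h).comp h (AmF.natUnpair h hf)

theorem AmF.arUnpair2 {α : Type*} [Cod α] {f : α → ℕ} (hf : AmF M f) :
    AmF M (fun x => (f x).unpair.2) :=
  (AmF.snd h).comp h (AmF.natUnpair h hf)

theorem AmF.arTv {α : Type*} [Cod α] {f : α → ℕ} (hf : AmF M f) : AmF M (fun x => CL.arTv (f x)) :=
  AmF.arUnpair2 h (AmF.arUnpair2 h hf)

theorem AmF.arAv {α : Type*} [Cod α] {f : α → ℕ} (hf : AmF M f) : AmF M (fun x => CL.arAv (f x)) :=
  AmF.arUnpair1 h (AmF.arUnpair2 h hf)

theorem AmF.arConst {α : Type*} [Cod α] (n : ℕ) : AmF M (fun _ : α => n) :=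
  AmF.const h n (AbsCod.mem h _)

theorem ArSys.am {R : ℕ → Prop} (hR : Am M R) : ∃ C, ArSys M (fun _ p => R p) C := by
  classical
  refine ⟨fun f => ∀ k, (CL.arTv (f k) ≠ 0 ↔ R k), ?_, fun x => ?_, fun f hf p => hf p⟩
  · refine ArCl.cond h (Q := fun k u _ => (CL.arTv u ≠ 0 ↔ R k)) (a := fun k => k) (b := fun k => k)
      ?_ (AmF.id h) (AmF.id h)
    refine Am.iff h (Am.not h (Am.eq h (AmF.arTv h ((AmF.fst h).comp h (AmF.snd h)))
      (AmF.arConst h 0))) (hR.comp h (AmF.fst h))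
  · refine ⟨fun i => Nat.pair 0 (if R i then 1 else 0), fun k => ?_⟩
    unfold CL.arTv
    simp only [Nat.unpair_pair]
    by_cases hk : R k <;> simp [hk]

theorem ArSys.mem {f : ℕ → ℕ} (hf : AmF M f) : ∃ C, ArSys M (fun x p => f p ∈ x) C := by
  classical
  refine ⟨fun g => ∀ k, (CL.arTv (g k) ≠ 0 ↔ (g (f k)).unpair.1 = 1), ?_, fun x => ?_,
    fun g hg p => hg p⟩
  · refine ArCl.cond h (Q := fun _ u v => (CL.arTv u ≠ 0 ↔ v.unpair.1 = 1)) (a := fun k => k)
      (b := f) ?_ (AmF.id h) hf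
    refine Am.iff h (Am.not h (Am.eq h (AmF.arTv h ((AmF.fst h).comp h (AmF.snd h)))
      (AmF.arConst h 0))) (Am.eq h (AmF.arUnpair1 h ((AmF.snd h).comp h (AmF.snd h)))
      (AmF.arConst h 1))
  · refine ⟨fun i => Nat.pair 0 (arChi x (f i)), fun k => ?_⟩
    unfold CL.arTv arChi
    simp only [Nat.unpair_pair]
    by_cases hk : f k ∈ x <;> simp [hk]

theorem ArSys.not {R : Set ℕ → ℕ → Prop} (hR : ∃ C, ArSys M R C) :
    ∃ C, ArSys M (fun x p => ¬ R x p) C := by
  obtain ⟨C, hC⟩ := hR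
  refine ⟨fun f => C (fun i => Nat.pair (f i).unpair.1 (arAv (f i))) ∧
    ∀ k, (CL.arTv (f k) ≠ 0 ↔ (arAv (f k)).unpair.2 = 0), ?_, fun x => ?_, ?_⟩
  · refine ArCl.and h (ArCl.map h hC.cl (g := fun v => Nat.pair v.unpair.1 (arAv v)) ?_) ?_
    · exact AmF.natPair h (AmF.arUnpair1 h (AmF.id h)) (AmF.arAv h (AmF.id h))
    · refine ArCl.cond h (Q := fun _ u _ => (CL.arTv u ≠ 0 ↔ (arAv u).unpair.2 = 0))
        (a := fun k => k) (b := fun k => k) ?_ (AmF.id h) (AmF.id h)
      have hu : AmF M (fun q : ℕ × ℕ × ℕ => q.2.1) := (AmF.fst h).comp h (AmF.snd h)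
      exact Am.iff h (Am.not h (Am.eq h (AmF.arTv h hu) (AmF.arConst h 0)))
        (Am.eq h (AmF.arUnpair2 h (AmF.arAv h hu)) (AmF.arConst h 0))
  · obtain ⟨s, hs⟩ := hC.ex x
    refine ⟨fun i => Nat.pair (s i) (if (s i).unpair.2 = 0 then 1 else 0), ?_, fun k => ?_⟩
    · unfold arAv
      simp only [Nat.unpair_pair]
      exact hs
    · unfold CL.arTv CL.arAv
      simp only [Nat.unpair_pair]
      by_cases hk : (s k).unpair.2 = 0 <;> simp [hk]
  · intro f hf p
    have h1 := hC.tv _ hf.1 p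
    have h2 : arDec (fun i => Nat.pair (f i).unpair.1 (arAv (f i))) = arDec f := by
      unfold arDec
      simp only [Nat.unpair_pair]
    rw [h2] at h1
    rw [hf.2 p, ← h1]
    unfold CL.arTv
    rw [Nat.unpair_pair]
    simp

theorem ArSys.and {R S : Set ℕ → ℕ → Prop} (hR : ∃ C, ArSys M R C) (hS : ∃ C, ArSys M S C) :
    ∃ C, ArSys M (fun x p => R x p ∧ S x p) C := by
  obtain ⟨C, hC⟩ := hR
  obtain ⟨D, hD⟩ := hS
  refine ⟨fun f => (C (fun i => Nat.pair (f i).unpair.1 (arAv (f i)).unpair.1) ∧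
    D (fun i => Nat.pair (f i).unpair.1 (arAv (f i)).unpair.2)) ∧
    ∀ k, (CL.arTv (f k) ≠ 0 ↔ (arAv (f k)).unpair.1.unpair.2 ≠ 0 ∧
      (arAv (f k)).unpair.2.unpair.2 ≠ 0), ?_, fun x => ?_, ?_⟩
  · refine ArCl.and h (ArCl.and h (ArCl.map h hC.cl
      (g := fun v => Nat.pair v.unpair.1 (arAv v).unpair.1) ?_) (ArCl.map h hD.cl
      (g := fun v => Nat.pair v.unpair.1 (arAv v).unpair.2) ?_)) ?_
    · exact AmF.natPair h (AmF.arUnpair1 h (AmF.id h)) (AmF.arUnpair1 h (AmF.arAv h (AmF.id h)))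
    · exact AmF.natPair h (AmF.arUnpair1 h (AmF.id h)) (AmF.arUnpair2 h (AmF.arAv h (AmF.id h)))
    · refine ArCl.cond h (Q := fun _ u _ => (CL.arTv u ≠ 0 ↔ (arAv u).unpair.1.unpair.2 ≠ 0 ∧
        (arAv u).unpair.2.unpair.2 ≠ 0))
        (a := fun k => k) (b := fun k => k) ?_ (AmF.id h) (AmF.id h)
      have hu : AmF M (fun q : ℕ × ℕ × ℕ => q.2.1) := (AmF.fst h).comp h (AmF.snd h)
      exact Am.iff h (Am.not h (Am.eq h (AmF.arTv h hu) (AmF.arConst h 0)))
        (Am.and h (Am.not h (Am.eq h (AmF.arUnpair2 h (AmF.arUnpair1 h (AmF.arAv h hu)))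
          (AmF.arConst h 0))) (Am.not h (Am.eq h (AmF.arUnpair2 h (AmF.arUnpair2 h (AmF.arAv h hu)))
          (AmF.arConst h 0))))
  · obtain ⟨s, hs⟩ := hC.ex x
    obtain ⟨t, ht⟩ := hD.ex x
    refine ⟨fun i => Nat.pair (Nat.pair (s i) (t i))
      (if (s i).unpair.2 ≠ 0 ∧ (t i).unpair.2 ≠ 0 then 1 else 0), ?_, fun k => ?_⟩
    · unfold arAv
      simp only [Nat.unpair_pair]
      exact ⟨hs, ht⟩
    · unfold CL.arTv CL.arAv
      simp only [Nat.unpair_pair]
      by_cases hk : (s k).unpair.2 ≠ 0 ∧ (t k).unpair.2 ≠ 0 <;> simp [hk]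
  · intro f hf p
    have h1 := hC.tv _ hf.1.1 p
    have h2 := hD.tv _ hf.1.2 p
    have e1 : arDec (fun i => Nat.pair (f i).unpair.1 (arAv (f i)).unpair.1) = arDec f := by
      unfold arDec
      simp only [Nat.unpair_pair]
    have e2 : arDec (fun i => Nat.pair (f i).unpair.1 (arAv (f i)).unpair.2) = arDec f := by
      unfold arDec
      simp only [Nat.unpair_pair]
    rw [e1] at h1
    rw [e2] at h2
    rw [hf.2 p, ← h1, ← h2]
    unfold CL.arTv
    rw [Nat.unpair_pair, Nat.unpair_pair]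

theorem ArSys.exists {R : Set ℕ → ℕ → Prop} (hR : ∃ C, ArSys M R C) :
    ∃ C, ArSys M (fun x p => ∃ n, R x (Nat.pair p n)) C := by
  classical
  obtain ⟨C, hC⟩ := hR
  -- first condition: if the truth value at `p` is `n + 1`, then it holds at `pair p n`
  -- second condition: if the truth value at `p` is `0`, then it does not hold at `pair p n`
  refine ⟨fun f => C (fun i => Nat.pair (f i).unpair.1 (arAv (f i))) ∧
    ∀ k, (CL.arTv (f k.unpair.1) = 0 → (arAv (f k)).unpair.2 = 0) ∧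
      (CL.arTv (f k.unpair.1) = k.unpair.2 + 1 → (arAv (f k)).unpair.2 ≠ 0),
      ?_, fun x => ?_, ?_⟩
  · refine ArCl.and h (ArCl.map h hC.cl (g := fun v => Nat.pair v.unpair.1 (arAv v)) ?_) ?_
    · exact AmF.natPair h (AmF.arUnpair1 h (AmF.id h)) (AmF.arAv h (AmF.id h))
    · refine ArCl.cond h (Q := fun k u v => (CL.arTv u = 0 → (arAv v).unpair.2 = 0) ∧
        (CL.arTv u = k.unpair.2 + 1 → (arAv v).unpair.2 ≠ 0))
        (a := fun k => k.unpair.1) (b := fun k => k) ?_ (AmF.arUnpair1 h (AmF.id h)) (AmF.id h)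
      have hk : AmF M (fun q : ℕ × ℕ × ℕ => q.1) := AmF.fst h
      have hu : AmF M (fun q : ℕ × ℕ × ℕ => q.2.1) := (AmF.fst h).comp h (AmF.snd h)
      have hv : AmF M (fun q : ℕ × ℕ × ℕ => q.2.2) := (AmF.snd h).comp h (AmF.snd h)
      have e1 := Am.eq h (AmF.arUnpair2 h (AmF.arAv h hv)) (AmF.arConst h 0)
      exact Am.and h (Am.imp h (Am.eq h (AmF.arTv h hu) (AmF.arConst h 0)) e1)
        (Am.imp h (Am.eq h (AmF.arTv h hu) (AmF.natSucc h (AmF.arUnpair2 h hk))) (Am.not h e1))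
  · obtain ⟨s, hs⟩ := hC.ex x
    have hw : ∀ p : ℕ, ∃ w : ℕ, (w = 0 → ∀ n, (s (Nat.pair p n)).unpair.2 = 0) ∧
        ∀ n, w = n + 1 → (s (Nat.pair p n)).unpair.2 ≠ 0 := by
      intro p
      by_cases hp : ∃ n, (s (Nat.pair p n)).unpair.2 ≠ 0
      · obtain ⟨n, hn⟩ := hp
        refine ⟨n + 1, by omega, fun m hm => ?_⟩
        have : n = m := by omega
        rw [← this]
        exact hn
      · push Not at hp
        exact ⟨0, fun _ => hp, by omega⟩
    choose w hw1 hw2 using hw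
    refine ⟨fun i => Nat.pair (s i) (w i), ?_, fun k => ?_⟩
    · unfold arAv
      simp only [Nat.unpair_pair]
      exact hs
    · unfold CL.arTv CL.arAv
      simp only [Nat.unpair_pair]
      have e1 : Nat.pair k.unpair.1 k.unpair.2 = k := Nat.pair_unpair k
      constructor
      · intro h1
        have h2 := hw1 _ h1 k.unpair.2
        rw [e1] at h2
        exact h2
      · intro h1
        have h2 := hw2 _ _ h1
        rw [e1] at h2
        exact h2
  · intro f hf p
    have e2 : arDec (fun i => Nat.pair (f i).unpair.1 (arAv (f i))) = arDec f := by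
      unfold arDec
      simp only [Nat.unpair_pair]
    have h1 : ∀ q, ((arAv (f q)).unpair.2 ≠ 0 ↔ R (arDec f) q) := by
      intro q
      have h2 := hC.tv _ hf.1 q
      rw [e2] at h2
      rw [← h2]
      unfold CL.arTv
      rw [Nat.unpair_pair]
    constructor
    · intro h3
      obtain ⟨n, hn⟩ := Nat.exists_eq_succ_of_ne_zero h3
      refine ⟨n, ?_⟩
      rw [← h1]
      have h4 := (hf.2 (Nat.pair p n)).2
      rw [Nat.unpair_pair] at h4
      exact h4 hn
    · rintro ⟨n, hn⟩ h3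
      rw [← h1] at hn
      have h4 := (hf.2 (Nat.pair p n)).1
      rw [Nat.unpair_pair] at h4
      exact hn (h4 h3)

end

/-- Every arithmetical relation has a system. -/
theorem Arith.exists_sys {M : Set ZFSet.{0}} (h : IsInner M) {R : Set ℕ → ℕ → Prop}
    (hR : Arith M R) : ∃ C, ArSys M R C := by
  induction hR with
  | am hR => exact ArSys.am h hR
  | mem hf => exact ArSys.mem h hf
  | not _ ih => exact ArSys.not h ih
  | and _ _ ih1 ih2 => exact ArSys.and h ih1 ih2
  | ex _ ih => exact ArSys.exists h ih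

/-- An arithmetical statement with parameters in `M` which has a solution has a solution in `M`. -/
theorem Arith.exists_mem {M : Set ZFSet.{0}} (h : IsInner M) {R : Set ℕ → ℕ → Prop}
    (hR : Arith M R) {p : ℕ} {x : Set ℕ} (hx : R x p) : ∃ x' : Set ℕ, rl x' ∈ M ∧ R x' p := by
  obtain ⟨C, hC⟩ := hR.exists_sys h
  have hcl : ArCl M (fun f => C f ∧ ∀ _ : ℕ, arTv (f p) ≠ 0) := by
    refine ArCl.and h hC.cl ?_
    refine ArCl.cond h (Q := fun _ u _ => arTv u ≠ 0) (a := fun _ => p) (b := fun _ => p) ?_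
      (AmF.arConst h p) (AmF.arConst h p)
    exact Am.not h (Am.eq h (AmF.arTv h ((AmF.fst h).comp h (AmF.snd h))) (AmF.arConst h 0))
  obtain ⟨T, hT, hT'⟩ := hcl
  obtain ⟨s, hs⟩ := hC.ex x
  have h1 := (hC.tv _ hs p).2 (by rw [arDec_pair]; exact hx)
  obtain ⟨g, hg, hg'⟩ := branch_abs h hT ((hT' _).1 ⟨hs, fun _ => h1⟩)
  have h2 := (hT' g).2 hg'
  refine ⟨arDec g, ?_, (hC.tv g h2.1 p).1 (h2.2 0)⟩
  have h3 : AmF M (fun q : ℕ → ℕ => {i : ℕ | (q i).unpair.1 = 1}) := by
    refine AmF.setOf h (R := fun (q : ℕ → ℕ) (i : ℕ) => (q i).unpair.1 = 1) ?_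
    refine Am.eq h (AmF.arUnpair1 h ?_) (AmF.arConst h 1)
    exact AmF.apply h (g := fun q : (ℕ → ℕ) × ℕ => q.1) (AmF.fst h) (AmF.snd h)
  exact h3.mem g hg

end Pool.Agent.Helper17.CL
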